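import Mathlib
import Pool.Agent.Helper33.Flat
import Pool.Agent.Helper33.FlatProd
import Pool.Agent.Helper33.FlatTree

set_option autoImplicit false

open Finset
open scoped FinsetFamily

namespace Pool.Agent.Results.MP_62b59a_co.AllLevels

open Pool.Agent.Helper33.Flat Pool.Agent.Helper33.FlatProd Pool.Agent.Helper33.FlatTree

/-- Ratio of binomial coefficients. -/
lemma descFactorial_ratio (a b l : ℕ) (hab : a ≤ b) :
    a.descFactorial l * b ^ l ≤ b.descFactorial l * a ^ l := by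
  induction l with
  | zero => simp
  | succ l ih =>
    rw [Nat.descFactorial_succ, Nat.descFactorial_succ, pow_succ, pow_succ]
    have h1 : (a - l) * b ≤ (b - l) * a := by
      rcases le_or_gt a l with h | h
      · rw [Nat.sub_eq_zero_of_le h, zero_mul]; exact Nat.zero_le _
      · obtain ⟨c, rfl⟩ := Nat.exists_eq_add_of_le h.le
        obtain ⟨d, rfl⟩ := Nat.exists_eq_add_of_le hab
        have e1 : l + c - l = c := by omega
        have e2 : l + c + d - l = c + d := by omega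
        rw [e1, e2]
        nlinarith [Nat.zero_le (l * d)]
    calc (a - l) * a.descFactorial l * (b ^ l * b)
        = ((a - l) * b) * (a.descFactorial l * b ^ l) := by ring
      _ ≤ ((b - l) * a) * (b.descFactorial l * a ^ l) := Nat.mul_le_mul h1 ih
      _ = (b - l) * b.descFactorial l * (a ^ l * a) := by ring

lemma choose_ratio (a b l : ℕ) (hab : a ≤ b) :
    a.choose l * b ^ l ≤ b.choose l * a ^ l := by
  have h := descFactorial_ratio a b l hab
  rw [Nat.descFactorial_eq_factorial_mul_choose, Nat.descFactorial_eq_factorial_mul_choose,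
    mul_assoc, mul_assoc] at h
  exact Nat.le_of_mul_le_mul_left h (Nat.factorial_pos l)

lemma choose_ratio_real (a b l : ℕ) (hab : a ≤ b) (hb : 0 < b) :
    (a.choose l : ℝ) ≤ ((a : ℝ) / b) ^ l * (b.choose l : ℝ) := by
  have h : (a.choose l : ℝ) * (b : ℝ) ^ l ≤ (b.choose l : ℝ) * (a : ℝ) ^ l := by
    exact_mod_cast choose_ratio a b l hab
  have hb' : (0 : ℝ) < (b : ℝ) ^ l := by positivity
  rw [div_pow, div_mul_eq_mul_div, le_div_iff₀ hb']
  linarith

/-- Increment of binomial coefficients. -/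
lemma choose_increment (m d l : ℕ) (hl : 1 ≤ l) :
    (m + d).choose l ≤ m.choose l + d * (m + d).choose (l - 1) := by
  induction d with
  | zero => simp
  | succ d ih =>
    obtain ⟨k, rfl⟩ := Nat.exists_eq_add_of_le hl
    have e : m + (d + 1) = (m + d) + 1 := by ring
    have e1 : 1 + k - 1 = k := by omega
    have e2 : 1 + k = k + 1 := by ring
    rw [e1] at ih ⊢
    rw [e2] at ih ⊢
    rw [e, Nat.choose_succ_succ]
    have h1 : (m + d).choose k ≤ (m + d + 1).choose k := Nat.choose_le_choose k (Nat.le_succ _)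
    calc (m + d).choose k + (m + d).choose (k + 1)
        ≤ (m + d + 1).choose k + (m.choose (k + 1) + d * (m + d).choose k) :=
          Nat.add_le_add h1 ih
      _ ≤ (m + d + 1).choose k + (m.choose (k + 1) + d * (m + d + 1).choose k) := by
          gcongr
      _ = _ := by ring

lemma exp_bounds : Real.exp (-(5 / 4)) ≤ 7 / 24 ∧ Real.exp (-(5 / 2)) ≤ 1 / 12 := by
  have h5 : (148 : ℝ) ≤ Real.exp 5 := by
    have h1 : Real.exp 5 = (Real.exp 1) ^ 5 := by rw [← Real.exp_nat_mul]; norm_num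
    have h2 := Real.exp_one_gt_d9
    rw [h1]
    have : (2.718 : ℝ) ^ 5 ≤ (Real.exp 1) ^ 5 := by
      apply pow_le_pow_left₀ (by norm_num)
      linarith
    refine le_trans ?_ this
    norm_num
  constructor
  · rw [Real.exp_neg, inv_le_comm₀ (Real.exp_pos _) (by norm_num)]
    by_contra h
    push Not at h
    have h1 : Real.exp 5 = (Real.exp (5 / 4)) ^ 4 := by rw [← Real.exp_nat_mul]; norm_num
    have h2 : (Real.exp (5 / 4)) ^ 4 ≤ ((7 / 24 : ℝ)⁻¹) ^ 4 :=
      pow_le_pow_left₀ (Real.exp_pos _).le h.le 4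
    rw [h1] at h5
    have h3 : (((7 : ℝ) / 24)⁻¹) ^ 4 < 148 := by norm_num
    linarith
  · rw [Real.exp_neg, inv_le_comm₀ (Real.exp_pos _) (by norm_num)]
    by_contra h
    push Not at h
    have h1 : Real.exp 5 = (Real.exp (5 / 2)) ^ 2 := by rw [← Real.exp_nat_mul]; norm_num
    have h2 : (Real.exp (5 / 2)) ^ 2 ≤ ((1 / 12 : ℝ)⁻¹) ^ 2 :=
      pow_le_pow_left₀ (Real.exp_pos _).le h.le 2
    rw [h1] at h5
    have h3 : (((1 : ℝ) / 12)⁻¹) ^ 2 < 148 := by norm_num
    linarith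

lemma exp_chord (u : ℝ) (h1 : 5 / 4 ≤ u) (h2 : u ≤ 5 / 2) : 6 * Real.exp (-u) ≤ 3 - u := by
  obtain ⟨e1, e2⟩ := exp_bounds
  have hconv := convexOn_exp
  set θ : ℝ := (u - 5 / 4) / (5 / 4) with hθ
  have hθ0 : 0 ≤ θ := by rw [hθ]; apply div_nonneg <;> linarith
  have hθ1 : θ ≤ 1 := by rw [hθ, div_le_one (by norm_num)]; linarith
  have h3 := hconv.2 (Set.mem_univ (-(5 / 4 : ℝ))) (Set.mem_univ (-(5 / 2 : ℝ)))
    (sub_nonneg.2 hθ1) hθ0 (by ring)
  have h4 : (1 - θ) • (-(5 / 4 : ℝ)) + θ • (-(5 / 2 : ℝ)) = -u := by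
    rw [smul_eq_mul, smul_eq_mul, hθ]
    ring
  rw [h4, smul_eq_mul, smul_eq_mul] at h3
  have h5 : Real.exp (-u) ≤ (1 - θ) * (7 / 24) + θ * (1 / 12) := by
    refine h3.trans ?_
    have := mul_le_mul_of_nonneg_left e1 (sub_nonneg.2 hθ1)
    have := mul_le_mul_of_nonneg_left e2 hθ0
    linarith
  have h6 : 6 * ((1 - θ) * (7 / 24) + θ * (1 / 12)) = 3 - u := by
    rw [hθ]; ring
  linarith

lemma geom_small (l : ℕ) (hl : 12 ≤ l) : (2 / 3 : ℝ) ^ l + 3 / (l + 1) ≤ 3 / l := by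
  have h : ∀ l : ℕ, 12 ≤ l → (l : ℝ) * (l + 1) * (2 / 3 : ℝ) ^ l ≤ 3 := by
    intro l hl
    induction l, hl using Nat.le_induction with
    | base => norm_num
    | succ l hl ih =>
      have hl' : (12 : ℝ) ≤ l := by exact_mod_cast hl
      have h1 : (0 : ℝ) < (2 / 3 : ℝ) ^ l := by positivity
      push_cast
      rw [pow_succ]
      have h2 : ((l : ℝ) + 1) * (l + 1 + 1) * (2 / 3) ≤ l * (l + 1) := by nlinarith
      calc ((l : ℝ) + 1) * (l + 1 + 1) * ((2 / 3) ^ l * (2 / 3))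
          = (((l : ℝ) + 1) * (l + 1 + 1) * (2 / 3)) * (2 / 3) ^ l := by ring
        _ ≤ (l * (l + 1)) * (2 / 3) ^ l := mul_le_mul_of_nonneg_right h2 h1.le
        _ ≤ 3 := ih
  have h1 := h l hl
  have hl' : (12 : ℝ) ≤ l := by exact_mod_cast hl
  have h2 : (2 / 3 : ℝ) ^ l ≤ 3 / (l * (l + 1)) := by
    rw [le_div_iff₀ (by positivity)]
    linarith
  have h3 : (3 : ℝ) / (l * (l + 1)) + 3 / (l + 1) = 3 / l := by
    field_simp
    ring
  linarith

/-- The large levels, for a fixed value of `n`. -/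
lemma main_bound (l : ℕ) (hl : 12 ≤ l) (n : ℕ) (hn : 16 * l ≤ n) :
    ∃ 𝒜 : Finset (Finset (Fin n)), IsFlatMax n l 𝒜 ∧
      (𝒜.card : ℝ) ≤ 12 / l * (n.choose l : ℝ) + (8 * l + 1) * (n.choose (l - 1) : ℝ) := by
  set m : ℕ := 8 * l / 15 with hm
  have hm0 : m ≠ 0 := by omega
  set J : ℕ := Nat.log 2 m with hJ
  have hJ1 : 2 ^ J ≤ m := Nat.pow_log_le_self 2 hm0
  have hJ2 : m < 2 ^ (J + 1) := Nat.lt_pow_succ_log_self (by norm_num) m
  set k : ℕ := 2 ^ J with hk
  have hJ3 : m < 2 * k := by rw [pow_succ] at hJ2; rw [hk]; omega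
  have hk1 : 15 * k ≤ 8 * l := by omega
  have hk2 : 8 * l < 30 * k := by omega
  have hk4 : 4 ≤ k := by omega
  have hJpos : J ≠ 0 := by
    rintro h
    rw [hk, h] at hk4
    norm_num at hk4
  have hkeven : Even k := by rw [hk]; exact (Nat.even_pow).2 ⟨even_two, hJpos⟩
  obtain ⟨T, hT⟩ : ∃ T, T = k - 1 := ⟨_, rfl⟩
  have hTk : T + 1 = k := by omega
  have hT3 : 3 ≤ T := by omega
  have hTodd : Odd T := by
    rw [← Nat.not_even_iff_odd]
    intro h
    have := h.add_one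
    rw [hTk] at this
    exact (Nat.not_even_iff_odd.2 this) hkeven
  set q : ℕ := (n - 3 * T) / (6 * T) with hq
  set N : ℕ := 2 * q + 1 with hN
  set L : ℕ := T * N with hL
  have hLpos : 0 < L := Nat.mul_pos (by omega) (by omega)
  have : NeZero L := ⟨hLpos.ne'⟩
  have hLodd : Odd L := hTodd.mul ⟨q, rfl⟩
  have hTl : 6 * T ≤ 8 * l := by omega
  have h3L : 3 * L = 6 * T * q + 3 * T := by rw [hL, hN]; ring
  have hdm := Nat.div_add_mod (n - 3 * T) (6 * T)
  have hmod : (n - 3 * T) % (6 * T) < 6 * T := Nat.mod_lt _ (by omega)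
  rw [← hq] at hdm
  have h3n : 3 * L ≤ n := by rw [h3L]; omega
  have hn3 : n ≤ 3 * L + 8 * l := by rw [h3L]; omega
  set s : ℕ := 2 * N with hs
  have hTs : (k - 1) * s = 2 * L := by rw [← hT, hs, hL]; ring
  -- the real parameter
  have hkR : (0 : ℝ) < k := by exact_mod_cast (show 0 < k by omega)
  have hlR : (12 : ℝ) ≤ l := by exact_mod_cast hl
  set u : ℝ := 2 * l / (3 * k) with hu
  have hu1 : 5 / 4 ≤ u := by
    rw [hu, div_le_div_iff₀ (by norm_num) (by positivity)]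
    have : (15 : ℝ) * k ≤ 8 * l := by exact_mod_cast hk1
    linarith
  have hu2 : u ≤ 5 / 2 := by
    rw [hu, div_le_div_iff₀ (by positivity) (by norm_num)]
    have : (8 : ℝ) * l ≤ 30 * k := by exact_mod_cast hk2.le
    linarith
  have hchord := exp_chord u hu1 hu2
  set r : ℝ := 2 * Real.exp (-u) with hr
  have hr0 : 0 ≤ r := by positivity
  have hr1 : r < 1 := by rw [hr]; linarith
  have hH : ∀ w : ℕ, w + s ≤ 3 * L → (w.choose l : ℝ) ≤ (r / 2) * ((w + s).choose l : ℝ) := by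
    intro w hw
    have hws : 0 < w + s := by omega
    refine (choose_ratio_real w (w + s) l (Nat.le_add_right _ _) hws).trans ?_
    apply mul_le_mul_of_nonneg_right _ (Nat.cast_nonneg _)
    have hwsR : (0 : ℝ) < ((w + s : ℕ) : ℝ) := by exact_mod_cast hws
    have hNR : (0 : ℝ) < N := by exact_mod_cast (show 0 < N by omega)
    have e1 : (w : ℝ) / ((w + s : ℕ) : ℝ) ≤ Real.exp (-(2 / (3 * k))) := by
      have e2 : (w : ℝ) / ((w + s : ℕ) : ℝ) = 1 - s / ((w + s : ℕ) : ℝ) := by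
        field_simp
        push_cast
        ring
      have e3 : 2 / (3 * (k : ℝ)) ≤ s / ((w + s : ℕ) : ℝ) := by
        rw [div_le_div_iff₀ (by positivity) hwsR]
        have e4 : w + s ≤ 3 * k * N := by
          calc w + s ≤ 3 * L := hw
            _ = 3 * T * N := by rw [hL]; ring
            _ ≤ 3 * k * N := by gcongr; omega
        have e5 : ((w + s : ℕ) : ℝ) ≤ 3 * k * N := by exact_mod_cast e4
        have e6 : (s : ℝ) = 2 * N := by rw [hs]; push_cast; ring
        rw [e6]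
        linarith
      rw [e2]
      have := Real.add_one_le_exp (-(2 / (3 * (k : ℝ))))
      linarith
    have e7 : (0 : ℝ) ≤ (w : ℝ) / ((w + s : ℕ) : ℝ) := by positivity
    calc ((w : ℝ) / ((w + s : ℕ) : ℝ)) ^ l ≤ (Real.exp (-(2 / (3 * k)))) ^ l :=
          pow_le_pow_left₀ e7 e1 l
      _ = r / 2 := by
          rw [← Real.exp_nat_mul, hr, hu]
          have : (l : ℝ) * -(2 / (3 * k)) = -(2 * l / (3 * k)) := by ring
          rw [this]
          ring
  obtain ⟨B, i1, i2, 𝒢, i3, hc, hG, hb⟩ := exists_tree l (3 * L) s r hr0 hr1 hH J L (by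
    rw [← hk, hTs]; omega)
  rw [← hk, hTs] at hc
  rw [← hk, hTs] at hb
  have hLL : L + 2 * L = 3 * L := by ring
  rw [hLL] at hb
  obtain ⟨𝒜, hA, hcard⟩ := exists_flat_prod (L := L) (𝒢 := 𝒢) (n := n) (l := l) hLodd hG
    (by omega) (by rw [hc]; omega) (by omega)
  rw [hc] at hcard
  have hLL1 : L + 1 + 2 * L = 3 * L + 1 := by ring
  rw [hLL1, hLL] at hcard
  refine ⟨𝒜, hA, ?_⟩
  have hcardR : ((L : ℝ) + 1) * ((𝒜.card : ℝ) + ((3 * L).choose l : ℝ)) ≤
      ((3 * L + 1).choose (l + 1) : ℝ) + ((L : ℝ) + 1) * ((n.choose l : ℝ) + (badN L 𝒢 l : ℝ) +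
        ((2 * L).choose l : ℝ) + ((3 * L).choose (l - 1) : ℝ)) := by exact_mod_cast hcard
  have hLR : (0 : ℝ) < L := by exact_mod_cast hLpos
  set C : ℝ := ((3 * L).choose l : ℝ) with hC
  have hC0 : 0 ≤ C := Nat.cast_nonneg _
  -- first term
  have t1 : ((3 * L + 1).choose (l + 1) : ℝ) ≤ ((L : ℝ) + 1) * (3 / (l + 1) * C) := by
    have h1 := Nat.add_one_mul_choose_eq (3 * L) l
    have h2 : ((3 * (L : ℝ)) + 1) * C = ((3 * L + 1).choose (l + 1) : ℝ) * ((l : ℝ) + 1) := by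
      rw [hC]; exact_mod_cast h1
    have h3 : ((3 * L + 1).choose (l + 1) : ℝ) = ((3 * (L : ℝ)) + 1) * C / ((l : ℝ) + 1) := by
      rw [h2]; field_simp
    rw [h3, div_le_iff₀ (by positivity)]
    have h4 : ((L : ℝ) + 1) * (3 / (l + 1) * C) * (l + 1) = (3 * (L + 1)) * C := by field_simp
    rw [h4]
    apply mul_le_mul_of_nonneg_right _ hC0
    linarith
  -- second term
  have t2 : (badN L 𝒢 l : ℝ) ≤ 9 / l * C := by
    refine hb.trans ?_
    have e3 : (2 : ℝ) ^ J = (k : ℝ) := by rw [hk]; push_cast; rfl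
    rw [e3]
    have h1 : (2 : ℝ) / k = 3 * u / l := by rw [hu]; field_simp
    rw [h1]
    have h2 : 0 < 1 - r := by linarith
    rw [div_le_iff₀ h2]
    have h3 : 3 * u ≤ 9 * (1 - r) := by rw [hr]; linarith
    calc C * (3 * u / l) = C / l * (3 * u) := by ring
      _ ≤ C / l * (9 * (1 - r)) := by gcongr
      _ = 9 / l * C * (1 - r) := by ring
  -- third term
  have t3 : ((2 * L).choose l : ℝ) ≤ (2 / 3) ^ l * C := by
    refine (choose_ratio_real (2 * L) (3 * L) l (by omega) (by omega)).trans ?_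
    rw [hC]
    apply le_of_eq
    congr 2
    push_cast
    field_simp
  -- fourth term
  have t4 : ((3 * L).choose (l - 1) : ℝ) ≤ (n.choose (l - 1) : ℝ) := by
    exact_mod_cast Nat.choose_le_choose _ h3n
  -- fifth term
  have t5 : (n.choose l : ℝ) ≤ C + 8 * l * (n.choose (l - 1) : ℝ) := by
    obtain ⟨d, hd⟩ := Nat.exists_eq_add_of_le h3n
    have h1 := choose_increment (3 * L) d l (by omega)
    rw [← hd] at h1
    have h2 : d ≤ 8 * l := by omega
    have h3 : n.choose l ≤ (3 * L).choose l + 8 * l * n.choose (l - 1) :=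
      h1.trans (Nat.add_le_add_left (Nat.mul_le_mul_right _ h2) _)
    rw [hC]
    exact_mod_cast h3
  have t6 : C ≤ (n.choose l : ℝ) := by rw [hC]; exact_mod_cast Nat.choose_le_choose _ h3n
  have hgeom := geom_small l hl
  have hL1 : (0 : ℝ) < (L : ℝ) + 1 := by positivity
  have key : (𝒜.card : ℝ) + C ≤ 3 / (l + 1) * C + ((n.choose l : ℝ) + 9 / l * C +
      (2 / 3) ^ l * C + (n.choose (l - 1) : ℝ)) := by
    have : ((L : ℝ) + 1) * ((𝒜.card : ℝ) + C) ≤ ((L : ℝ) + 1) * (3 / (l + 1) * C +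
        ((n.choose l : ℝ) + 9 / l * C + (2 / 3) ^ l * C + (n.choose (l - 1) : ℝ))) := by
      refine hcardR.trans ?_
      rw [mul_add ((L : ℝ) + 1) (3 / (l + 1) * C)]
      apply add_le_add t1
      apply mul_le_mul_of_nonneg_left _ hL1.le
      linarith
    exact le_of_mul_le_mul_left this hL1
  have h7 : 3 / ((l : ℝ) + 1) * C + (2 / 3) ^ l * C ≤ 3 / l * C := by
    rw [← add_mul]
    apply mul_le_mul_of_nonneg_right _ hC0
    linarith
  have h8 : 3 / (l : ℝ) * C + 9 / l * C = 12 / l * C := by ring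
  have h9 : 12 / (l : ℝ) * C ≤ 12 / l * (n.choose l : ℝ) := by gcongr
  linarith

/-- For every level `l`, there are maximal antichains of `l`-sets and `(l+1)`-sets of `Fin n`
whose size is at most `(12 / l + ε) * (n choose l)`, once `n` is large enough. -/
theorem result : ∀ l : ℕ, 1 ≤ l → ∀ ε : ℝ, 0 < ε → ∃ n₀ : ℕ, ∀ n : ℕ, n₀ ≤ n →
    ∃ 𝒜 : Finset (Finset (Fin n)), IsMaxAntichain (· ⊆ ·) (𝒜 : Set (Finset (Fin n))) ∧
      (∀ s ∈ 𝒜, s.card = l ∨ s.card = l + 1) ∧
      (𝒜.card : ℝ) ≤ (12 / l + ε) * (n.choose l : ℝ) := by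
  intro l hl1 ε hε
  have hlR : (1 : ℝ) ≤ l := by exact_mod_cast hl1
  rcases lt_or_ge l 12 with hl | hl
  · refine ⟨l, fun n hn => ?_⟩
    have hclosed : Closed l (∅ : Finset (Finset (Fin n))) := by
      refine ⟨fun Y hY => absurd hY (notMem_empty _), fun Y hc hY => ?_⟩
      have hYne : Y.Nonempty := by rw [← card_pos]; omega
      obtain ⟨y, hy⟩ := hYne
      have := hY y hy
      simp at this
    obtain ⟨𝒜, h1, h2⟩ := exists_flat_of_closed (∅ : Finset (Finset (Fin n))) hn hclosed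
    refine ⟨𝒜, h1.1, h1.2, ?_⟩
    have h3 : 𝒜.card ≤ n.choose l := by
      simp only [card_empty, zero_add] at h2
      omega
    have h4 : (𝒜.card : ℝ) ≤ 1 * (n.choose l : ℝ) := by rw [one_mul]; exact_mod_cast h3
    refine h4.trans (mul_le_mul_of_nonneg_right ?_ (Nat.cast_nonneg _))
    have h5 : (1 : ℝ) ≤ 12 / l := by
      rw [le_div_iff₀ (by positivity), one_mul]
      exact_mod_cast hl.le
    linarith
  · obtain ⟨M, hM⟩ := exists_nat_ge (((8 * l + 1) * l : ℝ) / ε)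
    refine ⟨16 * l + M, fun n hn => ?_⟩
    obtain ⟨𝒜, h1, h2⟩ := main_bound l hl n (by omega)
    refine ⟨𝒜, h1.1, h1.2, h2.trans ?_⟩
    rw [add_mul (12 / (l : ℝ)) ε]
    apply add_le_add_right
    obtain ⟨k, rfl⟩ := Nat.exists_eq_add_of_le hl1
    have e1 : 1 + k - 1 = k := by omega
    have e2 : 1 + k = k + 1 := by ring
    rw [e1]
    rw [e2] at hM hn ⊢
    have h3 := Nat.choose_succ_right_eq n k
    have hkn : k ≤ n := by omega
    have h4 : (n.choose (k + 1) : ℝ) * ((k : ℝ) + 1) = (n.choose k : ℝ) * ((n : ℝ) - k) := by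
      rw [← Nat.cast_sub hkn]
      exact_mod_cast h3
    have h5 : (M : ℝ) ≤ (n : ℝ) - k := by
      have : M + k ≤ n := by omega
      have : (M : ℝ) + k ≤ n := by exact_mod_cast this
      linarith
    have h6 : (8 * ((k + 1 : ℕ) : ℝ) + 1) * ((k + 1 : ℕ) : ℝ) ≤ ε * ((n : ℝ) - k) := by
      rw [div_le_iff₀ hε] at hM
      nlinarith
    have h7 : (0 : ℝ) ≤ (n.choose k : ℝ) := Nat.cast_nonneg _
    have h8 : (0 : ℝ) < ((k + 1 : ℕ) : ℝ) := by positivity
    have h9 : (8 * ((k + 1 : ℕ) : ℝ) + 1) * (n.choose k : ℝ) * ((k + 1 : ℕ) : ℝ) ≤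
        ε * (n.choose (k + 1) : ℝ) * ((k + 1 : ℕ) : ℝ) := by
      calc (8 * ((k + 1 : ℕ) : ℝ) + 1) * (n.choose k : ℝ) * ((k + 1 : ℕ) : ℝ)
          = ((8 * ((k + 1 : ℕ) : ℝ) + 1) * ((k + 1 : ℕ) : ℝ)) * (n.choose k : ℝ) := by ring
        _ ≤ (ε * ((n : ℝ) - k)) * (n.choose k : ℝ) := mul_le_mul_of_nonneg_right h6 h7
        _ = ε * ((n.choose k : ℝ) * ((n : ℝ) - k)) := by ring
        _ = ε * (n.choose (k + 1) : ℝ) * ((k + 1 : ℕ) : ℝ) := by rw [← h4]; push_cast; ring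
    exact le_of_mul_le_mul_right h9 h8

end Pool.Agent.Results.MP_62b59a_co.AllLevels
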