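import Mathlib
import Pool.Agent.Helper33.Flat
import Pool.Agent.Helper34.LF.Fin
import Pool.Agent.Helper51.LF.M_ER1
import Pool.Agent.Helper16.LF.M_ER2
import Pool.Agent.Helper48.LF.M_CL5
import Pool.Agent.Helper89.LF.M_CL32
import Pool.Agent.Helper19.LF.M_CL23
import Pool.Agent.Helper34.LF.M_UA
import Pool.Agent.Helper79.LF.M_UB
import Pool.Agent.Helper8.LF.M_UX
import Pool.Agent.Helper39.LF.M_CV31
import Pool.Agent.Helper47.LF.M_CV22
import Pool.Agent.Helper30.LF.M_DG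
import Pool.Agent.Helper91.LF.M_DQ
import Pool.Agent.Helper12.LF.M_NQ

set_option autoImplicit false

namespace Pool.Agent.Results.MP_62b59a_co.LevelFour

open Pool.Agent.Helper33.Flat Pool.Agent.Helper34.LF

/-- Upper bound `min S(n,4) ≤ (133/256 + o(1)) (n choose 4)`. -/
theorem result (ε : ℝ) (hε : 0 < ε) : ∃ n₀ : ℕ, ∀ n ≥ n₀, ∃ 𝒜 : Finset (Finset (Fin n)),
    IsFlatMax n 4 𝒜 ∧ (𝒜.card : ℝ) ≤ (133 / 256 + ε) * (n.choose 4 : ℝ) :=
  final
    { er1 := Pool.Agent.Helper51.LF.pER1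
      er2 := Pool.Agent.Helper16.LF.pER2
      cl5 := Pool.Agent.Helper48.LF.pCL5
      cl32 := Pool.Agent.Helper89.LF.pCL32
      cl23 := Pool.Agent.Helper19.LF.pCL23
      ua := Pool.Agent.Helper34.LF.MUA.pUA
      ub := Pool.Agent.Helper79.LF.pUB
      ux := Pool.Agent.Helper8.LF.pUX
      cv31 := Pool.Agent.Helper39.LF.pCV31
      cv22 := Pool.Agent.Helper47.LF.pCV22
      dg := Pool.Agent.Helper30.LF.pDG
      dq := Pool.Agent.Helper91.LF.pDQ
      nq := Pool.Agent.Helper12.LF.pNQ } ε hε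

end Pool.Agent.Results.MP_62b59a_co.LevelFour
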