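import Mathlib
import Pool.Agent.Helper33.Flat
import Pool.Agent.Helper33.FlatThree

set_option autoImplicit false

open Finset
open scoped FinsetFamily

namespace Pool.Agent.Results.MP_62b59a_co.LevelThree

open Pool.Agent.Helper33.Flat Pool.Agent.Helper33.FlatThree

/-- Upper bound `min S(n,3) ≤ (17/27 + o(1)) (n choose 3)`. -/
theorem result (ε : ℝ) (hε : 0 < ε) : ∃ n₀ : ℕ, ∀ n ≥ n₀, ∃ 𝒜 : Finset (Finset (Fin n)),
    IsFlatMax n 3 𝒜 ∧ (𝒜.card : ℝ) ≤ (17 / 27 + ε) * (n.choose 3 : ℝ) := by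
  obtain ⟨m, hm⟩ := exists_nat_gt (162 / ε)
  refine ⟨m + 6, fun n hn => ?_⟩
  have hn6 : 6 ≤ n := by omega
  -- number of labels
  obtain ⟨N, hN1, hN2, hN3⟩ : ∃ N : ℕ, 1 ≤ N ∧ 3 * N ≤ n ∧ n ≤ 3 * N + 2 :=
    ⟨n / 3, by omega, by omega, by omega⟩
  have : NeZero N := ⟨by omega⟩
  have hcard : Fintype.card (Fin 3 × ZMod N) ≤ Fintype.card (Fin n) := by
    rw [Fintype.card_prod, ZMod.card, Fintype.card_fin, Fintype.card_fin]
    exact hN2
  obtain ⟨f⟩ := Function.Embedding.nonempty_of_card_le hcard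
  obtain ⟨𝒜, h0, h1⟩ := exists_flat_three f (by omega)
  refine ⟨𝒜, h0, ?_⟩
  have h2 := two_card_D (N := N)
  have h3 : 3 * 𝒜.card + 5 * N ^ 3 ≤ 3 * n.choose 3 + 9 * N ^ 2 := by omega
  have h4 : (3 : ℝ) * 𝒜.card + 5 * (N : ℝ) ^ 3 ≤ 3 * (n.choose 3 : ℝ) + 9 * (N : ℝ) ^ 2 := by
    exact_mod_cast h3
  -- the binomial coefficient
  have hch : (n.choose 3 : ℝ) * 6 = (n : ℝ) * (n - 1) * (n - 2) := by
    have h5 : n.choose 3 * 6 = n * (n - 1) * (n - 2) := by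
      have := Nat.descFactorial_eq_factorial_mul_choose n 3
      simp only [Nat.descFactorial_succ, Nat.descFactorial_zero, Nat.factorial, Nat.sub_zero,
        mul_one, Nat.succ_eq_add_one] at this
      norm_num at this
      rw [mul_comm, ← this]
      ring
    have h6 : ((n.choose 3 * 6 : ℕ) : ℝ) = ((n * (n - 1) * (n - 2) : ℕ) : ℝ) := by rw [h5]
    rw [Nat.cast_mul, Nat.cast_mul, Nat.cast_mul, Nat.cast_sub (by omega), Nat.cast_sub (by omega)]
      at h6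
    simpa using h6
  have hNr1 : (3 : ℝ) * N ≤ n := by exact_mod_cast hN2
  have hNr2 : (n : ℝ) ≤ 3 * N + 2 := by exact_mod_cast hN3
  have hn6r : (6 : ℝ) ≤ n := by exact_mod_cast hn6
  have hmn : 162 / ε ≤ (n : ℝ) := by
    have : (m : ℝ) + 6 ≤ n := by exact_mod_cast hn
    linarith
  have hmn' : 162 ≤ ε * n := by
    rw [div_le_iff₀ hε] at hmn
    linarith
  set x : ℝ := (n : ℝ) with hx
  set y : ℝ := (N : ℝ) with hy
  -- lower bound for `y ^ 3`
  have hy0 : (x - 2) / 3 ≤ y := by linarith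
  have hy3 : ((x - 2) / 3) ^ 3 ≤ y ^ 3 := by
    apply pow_le_pow_left₀ _ hy0
    linarith
  have hy2 : y ^ 2 ≤ (x / 3) ^ 2 := by
    apply pow_le_pow_left₀ (by positivity)
    linarith
  have hch2 : x ^ 3 / 27 ≤ x * (x - 1) * (x - 2) := by nlinarith
  have key : (10 / 27) * (x * (x - 1) * (x - 2)) * (1 / 6) - (5 / 3) * y ^ 3 + 3 * y ^ 2
      ≤ x ^ 2 := by
    nlinarith
  have key2 : x ^ 2 ≤ ε * (x * (x - 1) * (x - 2)) * (1 / 6) := by
    have : ε * (x ^ 3 / 27) ≤ ε * (x * (x - 1) * (x - 2)) :=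
      mul_le_mul_of_nonneg_left hch2 hε.le
    have h7 : 162 * x ^ 2 ≤ ε * x * x ^ 2 := mul_le_mul_of_nonneg_right hmn' (by positivity)
    nlinarith
  have hc : (n.choose 3 : ℝ) = x * (x - 1) * (x - 2) / 6 := by linarith
  rw [hc] at h4 ⊢
  nlinarith

end Pool.Agent.Results.MP_62b59a_co.LevelThree
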