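import Pool.Agent.Helper85.FT.Asym

/-!
# Flat maximal antichains and the Turan density, for every level
-/

set_option autoImplicit false

namespace Pool.Agent.Results.MP_62b59a_co.TuranDensityBound

open Filter Topology Pool.Agent.Helper85.FT

/-- For every `l ≥ 2`, with `t_l` the Turan density (the limit of the extremal densities of
`l`-uniform hypergraphs without a complete sub-hypergraph on `l + 1` vertices), there are, for all
large `n`, maximal antichains of the lattice of all subsets of an `n`-set, contained in the levels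
`l` and `l + 1`, with at most `(1 - t_l + l / (l ^ 2 - 1) + ε) * binom(n, l)` members. -/
theorem result (l : ℕ) (hl : 2 ≤ l) :
    Tendsto (fun m : ℕ => (exN l m : ℝ) / (m.choose l : ℝ)) atTop (𝓝 (turanDensity l)) ∧
    ∀ ε : ℝ, 0 < ε → ∀ᶠ n : ℕ in atTop, ∃ 𝒜 : Finset (Finset (Fin n)),
      IsMaxAntichain (· ⊆ ·) (𝒜 : Set (Finset (Fin n))) ∧
      (∀ s ∈ 𝒜, s.card = l ∨ s.card = l + 1) ∧
      (𝒜.card : ℝ) ≤ (1 - turanDensity l + (l : ℝ) / ((l : ℝ) ^ 2 - 1) + ε) * n.choose l := by
  refine ⟨tendsto_exN l (by omega), fun ε hε => ?_⟩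
  filter_upwards [main_bound l hl ε hε] with n hn
  obtain ⟨𝒜, h1, h2⟩ := hn
  exact ⟨𝒜, h1.1, h1.2, h2⟩

end Pool.Agent.Results.MP_62b59a_co.TuranDensityBound
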